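import Pool.Agent.H15.Good

/-! Existence of unsatisfiable expanding 3-CNFs with `8 n` clauses. -/

namespace Pool.Agent.H15

open Finset

noncomputable section

open Classical

variable {n : ℕ}

/-- a random signed triple -/
abbrev Om (n : ℕ) := (Fin 3 ↪ Fin n) × (Fin 3 → ZMod 2)

def cl (ω : Om n) : Cl n := univ.image (fun i : Fin 3 => (ω.1 i, ω.2 i))

lemma satC_cl (ω : Om n) (x : V n) : SatC (cl ω) x ↔ ∃ i, x (ω.1 i) = ω.2 i := by
  unfold SatC cl
  constructor
  · rintro ⟨l, hl, hlx⟩
    obtain ⟨i, -, rfl⟩ := mem_image.1 hl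
    exact ⟨i, hlx⟩
  · rintro ⟨i, hi⟩
    exact ⟨_, mem_image_of_mem _ (mem_univ i), hi⟩

lemma card_cl (ω : Om n) : (cl ω).card = 3 := by
  unfold cl
  rw [card_image_of_injective]
  · simp
  · intro i j hij
    exact ω.1.injective (Prod.ext_iff.1 hij).1

lemma vars_cl (ω : Om n) : (cl ω).image Prod.fst = univ.image ω.1 := by
  unfold cl
  rw [image_image]
  rfl

lemma card_Om : Fintype.card (Om n) = n.descFactorial 3 * 8 := by
  rw [Fintype.card_prod, Fintype.card_embedding_eq]
  simp [ZMod.card]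

lemma card_Om_W (W : Finset (Fin n)) :
    (univ.filter (fun ω : Om n => ∀ j, ω.1 j ∈ W)).card ≤ W.card.descFactorial 3 * 8 := by
  have h1 : (univ.filter (fun ω : Om n => ∀ j, ω.1 j ∈ W)) =
      (univ.filter (fun e : Fin 3 ↪ Fin n => ∀ j, e j ∈ W)) ×ˢ (univ : Finset (Fin 3 → ZMod 2)) := by
    ext ⟨e, s⟩
    simp
  rw [h1, card_product]
  apply Nat.mul_le_mul
  · have h2 : (univ.filter (fun e : Fin 3 ↪ Fin n => ∀ j, e j ∈ W)).card =
        Fintype.card {e : Fin 3 ↪ Fin n // ∀ j, e j ∈ W} := by
      rw [Fintype.card_subtype]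
    rw [h2]
    have h3 : Fintype.card {e : Fin 3 ↪ Fin n // ∀ j, e j ∈ W} ≤
        Fintype.card (Fin 3 ↪ W) := by
      apply Fintype.card_le_of_injective
        (fun e => (⟨fun j => ⟨e.1 j, e.2 j⟩, by
          intro i j hij
          exact e.1.injective (congrArg Subtype.val hij)⟩ : Fin 3 ↪ W))
      intro e e' hee
      apply Subtype.ext
      apply Function.Embedding.ext
      intro j
      have := DFunLike.congr_fun hee j
      exact congrArg Subtype.val this
    refine h3.trans ?_
    rw [Fintype.card_embedding_eq]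
    simp
  · simp [ZMod.card]

lemma card_Om_sat (x : V n) :
    (univ.filter (fun ω : Om n => SatC (cl ω) x)).card ≤ n.descFactorial 3 * 7 := by
  have h1 : (univ.filter (fun ω : Om n => SatC (cl ω) x)).card +
      (univ.filter (fun ω : Om n => ¬ SatC (cl ω) x)).card = n.descFactorial 3 * 8 := by
    rw [card_filter_add_card_filter_not, card_univ, card_Om]
  have h2 : n.descFactorial 3 ≤ (univ.filter (fun ω : Om n => ¬ SatC (cl ω) x)).card := by
    have h3 : Fintype.card (Fin 3 ↪ Fin n) = n.descFactorial 3 := by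
      rw [Fintype.card_embedding_eq]; simp
    rw [← h3, ← card_univ]
    apply card_le_card_of_injOn (fun e : Fin 3 ↪ Fin n => ((e, fun i => x (e i) + 1) : Om n))
    · intro e _
      rw [mem_coe, mem_filter]
      refine ⟨mem_univ _, ?_⟩
      rw [satC_cl]
      push Not
      intro i
      show x (e i) ≠ x (e i) + 1
      have : ∀ a : ZMod 2, a ≠ a + 1 := by decide
      exact this _
    · intro e _ e' _ h
      exact (Prod.ext_iff.1 h).1
  omega

/-- number of tuples with all coordinates in prescribed sets -/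
lemma card_tuples {m : ℕ} (A : Fin m → Finset (Om n)) :
    (univ.filter (fun t : Fin m → Om n => ∀ i, t i ∈ A i)).card = ∏ i, (A i).card := by
  have : (univ.filter (fun t : Fin m → Om n => ∀ i, t i ∈ A i)) = Fintype.piFinset A := by
    ext t
    simp
  rw [this, Fintype.card_piFinset]

lemma card_bad1 (m : ℕ) :
    (univ.filter (fun t : Fin m → Om n => ∃ x : V n, ∀ i, SatC (cl (t i)) x)).card ≤
      2 ^ n * (n.descFactorial 3 * 7) ^ m := by
  have h1 : (univ.filter (fun t : Fin m → Om n => ∃ x : V n, ∀ i, SatC (cl (t i)) x)) ⊆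
      (univ : Finset (V n)).biUnion (fun x =>
        univ.filter (fun t : Fin m → Om n => ∀ i, t i ∈ univ.filter (fun ω => SatC (cl ω) x))) := by
    intro t ht
    obtain ⟨x, hx⟩ := (mem_filter.1 ht).2
    rw [mem_biUnion]
    refine ⟨x, mem_univ _, mem_filter.2 ⟨mem_univ _, fun i => mem_filter.2 ⟨mem_univ _, hx i⟩⟩⟩
  refine (card_le_card h1).trans (card_biUnion_le.trans ?_)
  have h2 : ∀ x ∈ (univ : Finset (V n)), (univ.filter (fun t : Fin m → Om n =>
      ∀ i, t i ∈ univ.filter (fun ω => SatC (cl ω) x))).card ≤ (n.descFactorial 3 * 7) ^ m := by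
    intro x _
    rw [card_tuples]
    refine (prod_le_prod' (fun i _ => card_Om_sat x)).trans ?_
    simp
  refine (sum_le_sum h2).trans ?_
  simp [ZMod.card]

/-- vertex budget -/
def vb (s : ℕ) : ℕ := (3 * s - 1) / 2

lemma card_bad2 (m K : ℕ) (hn : vb K ≤ n) :
    (univ.filter (fun t : Fin m → Om n => ∃ I : Finset (Fin m), 1 ≤ I.card ∧ I.card ≤ K ∧
      2 * (I.biUnion (fun i => univ.image (t i).1)).card < 3 * I.card)).card ≤
      ∑ s ∈ Icc 1 K, m.choose s * (n.choose (vb s) *
        (((vb s).descFactorial 3 * 8) ^ s * (n.descFactorial 3 * 8) ^ (m - s))) := by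
  have h1 : (univ.filter (fun t : Fin m → Om n => ∃ I : Finset (Fin m), 1 ≤ I.card ∧ I.card ≤ K ∧
      2 * (I.biUnion (fun i => univ.image (t i).1)).card < 3 * I.card)) ⊆
      (Icc 1 K).biUnion (fun s => (powersetCard s (univ : Finset (Fin m))).biUnion (fun I =>
        (powersetCard (vb s) (univ : Finset (Fin n))).biUnion (fun W =>
          univ.filter (fun t : Fin m → Om n => ∀ i, t i ∈
            (if i ∈ I then univ.filter (fun ω : Om n => ∀ j, ω.1 j ∈ W) else univ))))) := by
    intro t ht
    obtain ⟨I, hI1, hI2, hI3⟩ := (mem_filter.1 ht).2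
    have h2 : (I.biUnion (fun i => univ.image (t i).1)).card ≤ vb I.card := by
      unfold vb
      omega
    have h2' : vb I.card ≤ n := by
      refine le_trans ?_ hn
      unfold vb
      omega
    obtain ⟨W, hW1, hW2⟩ := exists_superset_card_eq h2 (by simpa using h2')
    rw [mem_biUnion]
    refine ⟨I.card, mem_Icc.2 ⟨hI1, hI2⟩, ?_⟩
    rw [mem_biUnion]
    refine ⟨I, mem_powersetCard.2 ⟨subset_univ _, rfl⟩, ?_⟩
    rw [mem_biUnion]
    refine ⟨W, mem_powersetCard.2 ⟨subset_univ _, hW2⟩, mem_filter.2 ⟨mem_univ _, ?_⟩⟩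
    intro i
    by_cases hi : i ∈ I
    · rw [if_pos hi]
      refine mem_filter.2 ⟨mem_univ _, fun j => hW1 ?_⟩
      rw [mem_biUnion]
      exact ⟨i, hi, mem_image_of_mem _ (mem_univ j)⟩
    · rw [if_neg hi]
      exact mem_univ _
  refine (card_le_card h1).trans (card_biUnion_le.trans (sum_le_sum ?_))
  intro s hs
  have e1 : m.choose s = (powersetCard s (univ : Finset (Fin m))).card := by
    rw [card_powersetCard]; simp
  have e2 : n.choose (vb s) = (powersetCard (vb s) (univ : Finset (Fin n))).card := by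
    rw [card_powersetCard]; simp
  rw [e1, e2, ← smul_eq_mul, ← sum_const]
  refine card_biUnion_le.trans (sum_le_sum ?_)
  intro I hI
  rw [← smul_eq_mul (powersetCard (vb s) (univ : Finset (Fin n))).card, ← sum_const]
  refine card_biUnion_le.trans (sum_le_sum ?_)
  intro W hW
  rw [card_tuples]
  have hIc := (mem_powersetCard.1 hI).2
  have hWc := (mem_powersetCard.1 hW).2
  rw [← prod_mul_prod_compl I]
  apply Nat.mul_le_mul
  · have : ∀ i ∈ I, (if i ∈ I then univ.filter (fun ω : Om n => ∀ j, ω.1 j ∈ W)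
        else univ).card ≤ (vb s).descFactorial 3 * 8 := by
      intro i hi
      rw [if_pos hi, ← hWc]
      exact card_Om_W W
    refine (prod_le_prod' this).trans ?_
    rw [prod_const, hIc]
  · have : ∀ i ∈ Iᶜ, (if i ∈ I then univ.filter (fun ω : Om n => ∀ j, ω.1 j ∈ W)
        else univ).card ≤ n.descFactorial 3 * 8 := by
      intro i hi
      rw [if_neg (mem_compl.1 hi), card_univ, card_Om]
    refine (prod_le_prod' this).trans ?_
    rw [prod_const, card_compl, hIc]
    simp

end

end Pool.Agent.H15
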