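import Pool.Agent.H15.Expander

/-! Numerical part of the existence of expanders, and the final existence statement. -/

namespace Pool.Agent.H15

open Finset

noncomputable section

open Classical

lemma self_pow_le (s : ℕ) : (s : ℝ) ^ s ≤ 3 ^ s * (s.factorial : ℝ) := by
  have h1 := Real.pow_div_factorial_le_exp (s : ℝ) (by positivity) s
  have h2 : Real.exp (s : ℝ) ≤ 3 ^ s := by
    have : Real.exp (s : ℝ) = (Real.exp 1) ^ s := by
      rw [← Real.exp_nat_mul]; simp
    rw [this]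
    apply pow_le_pow_left₀ (Real.exp_pos 1).le
    have := Real.exp_one_lt_d9
    linarith
  have h3 : (0 : ℝ) < (s.factorial : ℝ) := by positivity
  rw [div_le_iff₀ h3] at h1
  nlinarith

lemma choose_bound (a s : ℕ) (hs : 1 ≤ s) : (a.choose s : ℝ) ≤ (3 * a / s) ^ s := by
  have h1 : (a.choose s : ℝ) ≤ (a ^ s : ℝ) / (s.factorial : ℝ) := Nat.choose_le_pow_div s a
  refine h1.trans ?_
  have hs' : (0 : ℝ) < s := by exact_mod_cast hs
  have h3 : (0 : ℝ) < (s.factorial : ℝ) := by positivity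
  rw [div_pow, mul_pow, div_le_div_iff₀ h3 (by positivity)]
  have := self_pow_le s
  have h4 : (0 : ℝ) ≤ (a : ℝ) ^ s := by positivity
  nlinarith

lemma desc_bound {v n : ℕ} (hv : v ≤ n) (hn : 3 ≤ n) :
    (v.descFactorial 3 : ℝ) / (n.descFactorial 3 : ℝ) ≤ ((v : ℝ) / n) ^ 3 := by
  have hn' : (3 : ℝ) ≤ n := by exact_mod_cast hn
  have hn3 : (n.descFactorial 3 : ℝ) = n * (n - 1) * (n - 2) := by
    have h : n.descFactorial 3 = (n - 2) * ((n - 1) * n) := by
      simp [Nat.descFactorial]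
    rw [h]
    push_cast [Nat.cast_sub (by omega : 2 ≤ n), Nat.cast_sub (by omega : 1 ≤ n)]
    ring
  have hpos : (0 : ℝ) < n * (n - 1) * (n - 2) := by
    have : (0 : ℝ) < n - 1 := by linarith
    have : (0 : ℝ) < n - 2 := by linarith
    positivity
  rw [hn3, div_pow, div_le_div_iff₀ hpos (by positivity)]
  rcases lt_or_ge v 3 with h | h
  · have : v.descFactorial 3 = 0 := Nat.descFactorial_eq_zero_iff_lt.2 h
    rw [this]
    simp only [CharP.cast_eq_zero, zero_mul]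
    positivity
  · have hv3 : (v.descFactorial 3 : ℝ) = v * (v - 1) * (v - 2) := by
      have h' : v.descFactorial 3 = (v - 2) * ((v - 1) * v) := by
        simp [Nat.descFactorial]
      rw [h']
      push_cast [Nat.cast_sub (by omega : 2 ≤ v), Nat.cast_sub (by omega : 1 ≤ v)]
      ring
    rw [hv3]
    have hv' : (3 : ℝ) ≤ v := by exact_mod_cast h
    have hvn : (v : ℝ) ≤ n := by exact_mod_cast hv
    have e1 : ((v : ℝ) - 1) * n ≤ v * (n - 1) := by nlinarith
    have e2 : ((v : ℝ) - 2) * n ≤ v * (n - 2) := by nlinarith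
    have e3 : (0 : ℝ) ≤ ((v : ℝ) - 2) * n := by nlinarith
    have e4 : (0 : ℝ) ≤ v * (n - 1) := by nlinarith
    have e5 : (((v : ℝ) - 1) * n) * ((v - 2) * n) ≤ (v * (n - 1)) * (v * (n - 2)) :=
      mul_le_mul e1 e2 e3 e4
    have e6 : (0 : ℝ) ≤ (v : ℝ) * n := by positivity
    nlinarith [mul_le_mul_of_nonneg_left e5 e6]

lemma term_bound {n s v : ℕ} (hs : 1 ≤ s) (hv : 1 ≤ v) (hvs : 2 * v ≤ 3 * s)
    (hn : 9000000 * s ≤ n) :
    ((8 * n).choose s : ℝ) * ((n.choose v : ℝ) * (((v : ℝ) / n) ^ 3) ^ s) ≤ (1 / 4) ^ s := by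
  have hs' : (1 : ℝ) ≤ s := by exact_mod_cast hs
  have hv' : (1 : ℝ) ≤ v := by exact_mod_cast hv
  have hn' : (9000000 : ℝ) * s ≤ n := by exact_mod_cast hn
  have hn0 : (0 : ℝ) < n := by linarith
  have hvs' : (2 : ℝ) * v ≤ 3 * s := by exact_mod_cast hvs
  obtain ⟨e, he⟩ : ∃ e, e + v = 2 * s := ⟨2 * s - v, by omega⟩
  have h1 := choose_bound (8 * n) s hs
  have h2 := choose_bound n v hv
  have h3 : ((8 * n).choose s : ℝ) * ((n.choose v : ℝ) * (((v : ℝ) / n) ^ 3) ^ s) ≤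
      (3 * (8 * n : ℕ) / s) ^ s * ((3 * n / v) ^ v * (((v : ℝ) / n) ^ 3) ^ s) := by
    apply mul_le_mul h1 _ (by positivity) (by positivity)
    apply mul_le_mul_of_nonneg_right h2 (by positivity)
  refine h3.trans ?_
  have h4 : (((v : ℝ) / n) ^ 3) ^ s = ((v : ℝ) / n) ^ v * ((v : ℝ) / n) ^ (s + e) := by
    rw [← pow_mul, ← pow_add]
    congr 1
    omega
  have h5 : (3 * (n : ℝ) / v) ^ v * ((v : ℝ) / n) ^ v = 3 ^ v := by
    rw [← mul_pow]
    congr 1
    field_simp
  have h6 : ((v : ℝ) / n) ^ (s + e) ≤ (3 / 2 * (s / n)) ^ (s + e) := by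
    apply pow_le_pow_left₀ (by positivity)
    rw [div_le_iff₀ hn0]
    field_simp
    linarith
  have h7 : (3 * ((8 * n : ℕ) : ℝ) / s) ^ s * ((s : ℝ) / n) ^ s = 24 ^ s := by
    rw [← mul_pow]
    congr 1
    push_cast
    field_simp
    norm_num
  calc (3 * ((8 * n : ℕ) : ℝ) / s) ^ s * ((3 * n / v) ^ v * (((v : ℝ) / n) ^ 3) ^ s)
      = (3 * ((8 * n : ℕ) : ℝ) / s) ^ s * (3 ^ v * ((v : ℝ) / n) ^ (s + e)) := by
        rw [h4, ← mul_assoc ((3 * (n : ℝ) / v) ^ v), h5]
    _ ≤ (3 * ((8 * n : ℕ) : ℝ) / s) ^ s * (3 ^ v * (3 / 2 * (s / n)) ^ (s + e)) := by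
        gcongr
    _ = ((3 * ((8 * n : ℕ) : ℝ) / s) ^ s * ((s : ℝ) / n) ^ s) *
          (3 ^ v * (3 / 2) ^ (s + e) * ((s : ℝ) / n) ^ e) := by
        rw [mul_pow, pow_add ((s : ℝ) / n) s e]
        ring
    _ = 24 ^ s * (3 ^ v * (3 / 2) ^ (s + e) * ((s : ℝ) / n) ^ e) := by rw [h7]
    _ ≤ 24 ^ s * (9 ^ s * (27 / 8) ^ s * (1 / 2916) ^ s) := by
        have a1 : (3 : ℝ) ^ v ≤ 9 ^ s := by
          calc (3 : ℝ) ^ v ≤ 3 ^ (2 * s) := pow_le_pow_right₀ (by norm_num) (by omega)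
            _ = 9 ^ s := by rw [pow_mul]; norm_num
        have a2 : (3 / 2 : ℝ) ^ (s + e) ≤ (27 / 8) ^ s := by
          calc (3 / 2 : ℝ) ^ (s + e) ≤ (3 / 2) ^ (3 * s) :=
                pow_le_pow_right₀ (by norm_num) (by omega)
            _ = (27 / 8) ^ s := by rw [pow_mul]; norm_num
        have a3 : ((s : ℝ) / n) ^ e ≤ (1 / 2916) ^ s := by
          calc ((s : ℝ) / n) ^ e ≤ ((1 / 2916) ^ 2) ^ e := by
                apply pow_le_pow_left₀ (by positivity)
                rw [div_le_iff₀ hn0]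
                linarith
            _ = (1 / 2916) ^ (2 * e) := by rw [← pow_mul]
            _ ≤ (1 / 2916) ^ s := pow_le_pow_of_le_one (by norm_num) (by norm_num) (by omega)
        gcongr
    _ = (1 / 4) ^ s := by
        rw [← mul_pow, ← mul_pow, ← mul_pow]
        congr 1
        norm_num

lemma geom_bound (K : ℕ) : ∑ s ∈ Icc 1 K, (1 / 4 : ℝ) ^ s ≤ 1 / 3 := by
  have h : ∀ K : ℕ, ∑ s ∈ Icc 1 K, (1 / 4 : ℝ) ^ s = 1 / 3 * (1 - (1 / 4) ^ K) := by
    intro K
    induction K with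
    | zero => simp
    | succ K ih =>
      rw [sum_Icc_succ_top (by omega), ih]
      ring
  rw [h]
  have : (0 : ℝ) < (1 / 4) ^ K := by positivity
  linarith

theorem exists_good_tuple {n K : ℕ} (hn : 4 ≤ n) (hK : 9000000 * K ≤ n) :
    ∃ t : Fin (8 * n) → Om n, (∀ x : V n, ∃ i, ¬ SatC (cl (t i)) x) ∧
      ∀ I : Finset (Fin (8 * n)), I.card ≤ K →
        3 * I.card ≤ 2 * (I.biUnion (fun i => univ.image (t i).1)).card := by
  by_contra hcon
  push Not at hcon
  set D := n.descFactorial 3 with hD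
  have hDpos : 0 < D := Nat.descFactorial_pos.2 (by omega)
  have hcover : (univ : Finset (Fin (8 * n) → Om n)) ⊆
      (univ.filter (fun t : Fin (8 * n) → Om n => ∃ x : V n, ∀ i, SatC (cl (t i)) x)) ∪
      (univ.filter (fun t : Fin (8 * n) → Om n => ∃ I : Finset (Fin (8 * n)), 1 ≤ I.card ∧
        I.card ≤ K ∧ 2 * (I.biUnion (fun i => univ.image (t i).1)).card < 3 * I.card)) := by
    intro t _
    rw [mem_union]
    by_cases h : ∃ x : V n, ∀ i, SatC (cl (t i)) x
    · exact Or.inl (mem_filter.2 ⟨mem_univ _, h⟩)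
    · right
      push Not at h
      obtain ⟨I, hI1, hI2⟩ := hcon t h
      refine mem_filter.2 ⟨mem_univ _, I, ?_, hI1, hI2⟩
      by_contra h0
      have : I.card = 0 := by omega
      rw [this] at hI2
      omega
  have hvb : vb K ≤ n := by
    unfold vb
    omega
  have h1 := (card_le_card hcover).trans (card_union_le _ _)
  have h2 := h1.trans (Nat.add_le_add (card_bad1 (8 * n)) (card_bad2 (8 * n) K hvb))
  have h3 : (univ : Finset (Fin (8 * n) → Om n)).card = (D * 8) ^ (8 * n) := by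
    rw [card_univ, Fintype.card_fun, card_Om]
    simp [hD]
  rw [h3, ← hD] at h2
  have h4 : (((D * 8) ^ (8 * n) : ℕ) : ℝ) ≤ ((2 ^ n * (D * 7) ^ (8 * n) : ℕ) : ℝ) +
      ((∑ s ∈ Icc 1 K, (8 * n).choose s * (n.choose (vb s) *
        (((vb s).descFactorial 3 * 8) ^ s * (D * 8) ^ (8 * n - s))) : ℕ) : ℝ) := by
    exact_mod_cast h2
  set T : ℝ := ((D : ℝ) * 8) ^ (8 * n) with hT
  have hTpos : 0 < T := by
    have : (0 : ℝ) < D := by exact_mod_cast hDpos
    positivity
  have h5 : ((2 ^ n * (D * 7) ^ (8 * n) : ℕ) : ℝ) ≤ 1 / 4 * T := by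
    have e1 : ((2 ^ n * (D * 7) ^ (8 * n) : ℕ) : ℝ) = (2 * (7 / 8) ^ 8) ^ n * T := by
      rw [hT]
      push_cast
      rw [mul_pow (2 : ℝ), ← pow_mul, mul_assoc, ← mul_pow]
      congr 2
      ring
    rw [e1]
    apply mul_le_mul_of_nonneg_right _ hTpos.le
    calc ((2 : ℝ) * (7 / 8) ^ 8) ^ n ≤ (7 / 10) ^ n := by
          apply pow_le_pow_left₀ (by positivity)
          norm_num
      _ ≤ (7 / 10) ^ 4 := pow_le_pow_of_le_one (by norm_num) (by norm_num) hn
      _ ≤ 1 / 4 := by norm_num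
  have h6 : ((∑ s ∈ Icc 1 K, (8 * n).choose s * (n.choose (vb s) *
        (((vb s).descFactorial 3 * 8) ^ s * (D * 8) ^ (8 * n - s))) : ℕ) : ℝ) ≤ 1 / 3 * T := by
    push_cast
    calc ∑ s ∈ Icc 1 K, ((8 * n).choose s : ℝ) * ((n.choose (vb s) : ℝ) *
          ((((vb s).descFactorial 3 : ℝ) * 8) ^ s * ((D : ℝ) * 8) ^ (8 * n - s)))
        ≤ ∑ s ∈ Icc 1 K, (1 / 4 : ℝ) ^ s * T := by
          apply sum_le_sum
          intro s hs
          rw [mem_Icc] at hs
          have hv1 : 1 ≤ vb s := by unfold vb; omega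
          have hv2 : 2 * vb s ≤ 3 * s := by unfold vb; omega
          have hvn : vb s ≤ n := by unfold vb; omega
          have hb := term_bound (n := n) hs.1 hv1 hv2 (by omega)
          have hd := desc_bound hvn (by omega : 3 ≤ n)
          have hDr : (0 : ℝ) < D := by exact_mod_cast hDpos
          have e2 : ((((vb s).descFactorial 3 : ℝ) * 8) ^ s * ((D : ℝ) * 8) ^ (8 * n - s)) =
              (((vb s).descFactorial 3 : ℝ) / D) ^ s * T := by
            rw [hT]
            have : ((D : ℝ) * 8) ^ (8 * n) = ((D : ℝ) * 8) ^ s * ((D : ℝ) * 8) ^ (8 * n - s) := by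
              rw [← pow_add]
              congr 1
              omega
            rw [this, ← mul_assoc, ← mul_pow]
            congr 2
            field_simp
          rw [e2, ← mul_assoc, ← mul_assoc]
          apply mul_le_mul_of_nonneg_right _ hTpos.le
          refine le_trans ?_ hb
          rw [← mul_assoc]
          apply mul_le_mul_of_nonneg_left _ (by positivity)
          apply pow_le_pow_left₀ (by positivity)
          exact hd
      _ = (∑ s ∈ Icc 1 K, (1 / 4 : ℝ) ^ s) * T := by rw [sum_mul]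
      _ ≤ 1 / 3 * T := mul_le_mul_of_nonneg_right (geom_bound K) hTpos.le
  have h7 : (((D * 8) ^ (8 * n) : ℕ) : ℝ) = T := by
    rw [hT]; push_cast; rfl
  rw [h7] at h4
  linarith

/-- Existence of unsatisfiable expanding 3-CNFs. -/
theorem exists_expander {n K : ℕ} (hn : 4 ≤ n) (hK : 9000000 * K ≤ n) :
    ∃ F : Finset (Cl n), F.card ≤ 8 * n ∧
      (∀ C ∈ F, C.card = 3 ∧ (C.image Prod.fst).card = 3) ∧
      (∀ x : V n, ∃ C ∈ F, ¬ SatC C x) ∧
      ∀ J ⊆ F, J.card ≤ K → 3 * J.card ≤ 2 * (VarsF J).card := by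
  obtain ⟨t, ht1, ht2⟩ := exists_good_tuple hn hK
  refine ⟨univ.image (fun i => cl (t i)), ?_, ?_, ?_, ?_⟩
  · exact card_image_le.trans (by simp)
  · intro C hC
    obtain ⟨i, -, rfl⟩ := mem_image.1 hC
    refine ⟨card_cl _, ?_⟩
    rw [vars_cl, card_image_of_injective _ (t i).1.injective]
    simp
  · intro x
    obtain ⟨i, hi⟩ := ht1 x
    exact ⟨_, mem_image_of_mem _ (mem_univ i), hi⟩
  · intro J hJ hJK
    have hch : ∀ C ∈ J, ∃ i, cl (t i) = C := by
      intro C hC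
      obtain ⟨i, -, hi⟩ := mem_image.1 (hJ hC)
      exact ⟨i, hi⟩
    have : Nonempty (Fin (8 * n)) := ⟨⟨0, by omega⟩⟩
    choose! f hf using hch
    have hinj : Set.InjOn f (J : Set (Cl n)) := by
      intro C hC C' hC' h
      rw [← hf C hC, ← hf C' hC', h]
    have hcard : (J.image f).card = J.card := card_image_of_injOn hinj
    have h := ht2 (J.image f) (by rw [hcard]; exact hJK)
    rw [hcard] at h
    refine h.trans (Nat.mul_le_mul_left _ (card_le_card ?_))
    intro v hv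
    rw [mem_biUnion] at hv
    obtain ⟨i, hi, hvi⟩ := hv
    obtain ⟨C, hC, rfl⟩ := mem_image.1 hi
    rw [← vars_cl, hf C hC] at hvi
    unfold VarsF
    rw [mem_biUnion]
    exact ⟨C, hC, hvi⟩

end

end Pool.Agent.H15
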