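import Pool.Agent.H15.Narrow

/-! Good affine subspaces for expanding CNFs. -/

namespace Pool.Agent.H15

open Finset

noncomputable section

open Classical

variable {n : ℕ}

/-- clauses: finite sets of literals `(v, a)`, true at `x` when `x v = a` -/
abbrev Cl (n : ℕ) := Finset (Fin n × ZMod 2)

def SatC (C : Cl n) (x : V n) : Prop := ∃ l ∈ C, x l.1 = l.2

def VarsF (J : Finset (Cl n)) : Finset (Fin n) := J.biUnion (fun C => C.image Prod.fst)

/-- span of the unit vectors of the variables of `J` -/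
def ESp (J : Finset (Cl n)) : Submodule (ZMod 2) (V n) :=
  Submodule.span (ZMod 2) ((fun v : Fin n => (Pi.single v 1 : V n)) '' (VarsF J : Set (Fin n)))

lemma VarsF_union (J J' : Finset (Cl n)) : VarsF (J ∪ J') = VarsF J ∪ VarsF J' := by
  unfold VarsF
  exact union_biUnion

lemma ESp_union (J J' : Finset (Cl n)) : ESp (J ∪ J') = ESp J ⊔ ESp J' := by
  unfold ESp
  rw [VarsF_union, coe_union, Set.image_union, Submodule.span_union]

lemma ESp_empty : ESp (∅ : Finset (Cl n)) = ⊥ := by
  simp [ESp, VarsF]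

lemma single_mem_ESp {J : Finset (Cl n)} {C : Cl n} (hC : C ∈ J) {l : Fin n × ZMod 2}
    (hl : l ∈ C) : (Pi.single l.1 1 : V n) ∈ ESp J := by
  apply Submodule.subset_span
  refine ⟨l.1, ?_, rfl⟩
  simp only [VarsF, mem_coe, mem_biUnion, mem_image]
  exact ⟨C, hC, l, hl, rfl⟩

lemma card_le_finrank_ESp (J : Finset (Cl n)) :
    (VarsF J).card ≤ Module.finrank (ZMod 2) (ESp J) := by
  have h1 : LinearIndependent (ZMod 2) (fun v : Fin n => (Pi.single v 1 : V n)) :=
    Pi.linearIndependent_single_one (Fin n) (ZMod 2)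
  have h2 : LinearIndependent (ZMod 2)
      (fun v : (VarsF J : Set (Fin n)) => (Pi.single (v : Fin n) 1 : V n)) :=
    h1.comp _ Subtype.val_injective
  have h3 := finrank_span_eq_card h2
  unfold ESp
  rw [Set.image_eq_range, h3]
  simp

/-- separation by a dot product -/
lemma exists_sep {P : Submodule (ZMod 2) (V n)} {e : V n} (he : e ∉ P) :
    ∃ y : V n, (∀ p ∈ P, p ⬝ᵥ y = 0) ∧ e ⬝ᵥ y = 1 := by
  obtain ⟨f, hf, hP⟩ := Submodule.exists_dual_map_eq_bot_of_notMem he inferInstance
  have key : ∀ p : V n, f p = p ⬝ᵥ (fun i => f (Pi.single i 1)) := by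
    intro p
    rw [LinearMap.pi_apply_eq_sum_univ f p]
    unfold dotProduct
    apply sum_congr rfl
    intro i _
    rw [smul_eq_mul]
    congr 2
    funext j
    simp [Pi.single_apply, eq_comm]
  refine ⟨fun i => f (Pi.single i 1), ?_, ?_⟩
  · intro p hp
    rw [← key]
    have : f p ∈ Submodule.map f P := ⟨p, hp, rfl⟩
    rw [hP] at this
    exact (Submodule.mem_bot _).1 this
  · rw [← key]
    exact zmod2_ne_zero hf

lemma single_dot (v : Fin n) (x : V n) : (Pi.single v 1 : V n) ⬝ᵥ x = x v := by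
  simp

lemma exists_set_bit {P : Submodule (ZMod 2) (V n)} {v : Fin n}
    (hv : (Pi.single v 1 : V n) ∉ P) (z : V n) (a : ZMod 2) :
    ∃ x : V n, (∀ p ∈ P, p ⬝ᵥ x = p ⬝ᵥ z) ∧ x v = a := by
  by_cases h : z v = a
  · exact ⟨z, fun _ _ => rfl, h⟩
  · obtain ⟨y, hy1, hy2⟩ := exists_sep hv
    refine ⟨z + y, ?_, ?_⟩
    · intro p hp
      rw [dotProduct_add, hy1 p hp, add_zero]
    · rw [single_dot] at hy2
      show z v + y v = a
      rw [hy2]
      have : ∀ a b : ZMod 2, a ≠ b → a + 1 = b := by decide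
      exact this _ _ h

/-- the linear Hall-Tarsi lemma -/
theorem hall_tarsi : ∀ (m : ℕ) (I : Finset (Cl n)), I.card = m →
    ∀ (P : Submodule (ZMod 2) (V n)) (z : V n),
    (∀ J ⊆ I, Module.finrank (ZMod 2) P + J.card ≤ Module.finrank (ZMod 2) ↥(P ⊔ ESp J)) →
    ∃ x : V n, (∀ p ∈ P, p ⬝ᵥ x = p ⬝ᵥ z) ∧ ∀ C ∈ I, SatC C x := by
  intro m
  induction m using Nat.strong_induction_on with
  | _ m ih =>
    intro I hI P z hyp
    rcases I.eq_empty_or_nonempty with rfl | hne
    · exact ⟨z, fun _ _ => rfl, by simp⟩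
    by_cases htight : ∃ J ⊆ I, J.Nonempty ∧ J ≠ I ∧
        Module.finrank (ZMod 2) ↥(P ⊔ ESp J) = Module.finrank (ZMod 2) P + J.card
    · obtain ⟨J, hJI, hJne, hJI', hJt⟩ := htight
      have hJcard : J.card < m := by
        rw [← hI]
        exact card_lt_card (hJI.ssubset_of_ne hJI')
      obtain ⟨x', hx1, hx2⟩ := ih J.card hJcard J rfl P z (fun J' hJ' => hyp J' (hJ'.trans hJI))
      have hcard2 : (I \ J).card < m := by
        rw [card_sdiff_of_subset hJI, hI]
        have := hJne.card_pos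
        omega
      obtain ⟨x, hx3, hx4⟩ := ih (I \ J).card hcard2 (I \ J) rfl (P ⊔ ESp J) x' (by
        intro J' hJ'
        have h1 := hyp (J ∪ J') (union_subset hJI (hJ'.trans sdiff_subset))
        have h2 : Disjoint J J' := by
          rw [disjoint_left]
          intro C hC hC'
          exact (mem_sdiff.1 (hJ' hC')).2 hC
        rw [card_union_of_disjoint h2, ESp_union, ← sup_assoc] at h1
        omega)
      refine ⟨x, ?_, ?_⟩
      · intro p hp
        rw [hx3 p (Submodule.mem_sup_left hp), hx1 p hp]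
      · intro C hC
        by_cases hCJ : C ∈ J
        · obtain ⟨l, hl, hlx⟩ := hx2 C hCJ
          refine ⟨l, hl, ?_⟩
          have := hx3 (Pi.single l.1 1) (Submodule.mem_sup_right (single_mem_ESp hCJ hl))
          rw [single_dot, single_dot] at this
          rw [this, hlx]
        · exact hx4 C (mem_sdiff.2 ⟨hC, hCJ⟩)
    · push Not at htight
      obtain ⟨C, hC⟩ := hne
      have hCv : ∃ l ∈ C, (Pi.single l.1 1 : V n) ∉ P := by
        by_contra hcon
        push Not at hcon
        have h1 : ESp {C} ≤ P := by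
          unfold ESp
          rw [Submodule.span_le]
          rintro _ ⟨v, hv, rfl⟩
          simp only [VarsF, singleton_biUnion, coe_image, Set.mem_image, mem_coe] at hv
          obtain ⟨l, hl, rfl⟩ := hv
          exact hcon l hl
        have h2 := hyp {C} (by simpa using hC)
        rw [sup_eq_left.2 h1, card_singleton] at h2
        omega
      obtain ⟨l, hl, hlP⟩ := hCv
      obtain ⟨x', hx1, hx2⟩ := exists_set_bit hlP z l.2
      have hrank : Module.finrank (ZMod 2) ↥(P ⊔ Submodule.span (ZMod 2) {(Pi.single l.1 1 : V n)})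
          ≤ Module.finrank (ZMod 2) P + 1 := by
        refine (Submodule.finrank_add_le_finrank_add_finrank _ _).trans ?_
        refine Nat.add_le_add_left ?_ _
        have h5 := finrank_span_le_card (R := ZMod 2) ({(Pi.single l.1 1 : V n)} : Set (V n))
        simpa using h5
      obtain ⟨x, hx3, hx4⟩ := ih (I.erase C).card (by
          rw [card_erase_of_mem hC, hI]
          have : 0 < I.card := card_pos.2 ⟨C, hC⟩
          omega) (I.erase C) rfl
          (P ⊔ Submodule.span (ZMod 2) {(Pi.single l.1 1 : V n)}) x' (by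
        intro J hJ
        rcases J.eq_empty_or_nonempty with rfl | hJne
        · rw [card_empty, add_zero]
          exact Submodule.finrank_mono le_sup_left
        · have hJI : J ⊆ I := hJ.trans (erase_subset _ _)
          have hJI' : J ≠ I := by
            rintro rfl
            exact (mem_erase.1 (hJ hC)).1 rfl
          have h1 := hyp J hJI
          have h2 := htight J hJI hJne hJI'
          have h3 : Module.finrank (ZMod 2) ↥(P ⊔ ESp J) ≤ Module.finrank (ZMod 2)
              ↥(P ⊔ Submodule.span (ZMod 2) {(Pi.single l.1 1 : V n)} ⊔ ESp J) :=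
            Submodule.finrank_mono (sup_le_sup_right le_sup_left _)
          omega)
      refine ⟨x, ?_, ?_⟩
      · intro p hp
        rw [hx3 p (Submodule.mem_sup_left hp), hx1 p hp]
      · intro C' hC'
        by_cases hCC : C' = C
        · subst hCC
          refine ⟨l, hl, ?_⟩
          have := hx3 (Pi.single l.1 1) (Submodule.mem_sup_right
            (Submodule.mem_span_singleton_self _))
          rw [single_dot, single_dot] at this
          rw [this, hx2]
        · exact hx4 C' (mem_erase.2 ⟨hCC, hC'⟩)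

/-! ### Good affine subspaces -/

/-- the affine subspace of points agreeing with `z` on all forms in `S` -/
def Us (S : Finset (V n → ZMod 2)) (z : V n) : Set (V n) := {x | ∀ l ∈ S, l x = l z}

def Good (F : Finset (Cl n)) (M : ℕ) (S : Finset (V n → ZMod 2)) (z : V n) : Prop :=
  ∀ I ⊆ F, I.card ≤ M → ∃ x ∈ Us S z, ∀ C ∈ I, SatC C x

lemma IsAff.exists_coeff {l : V n → ZMod 2} (hl : IsAff l) :
    ∃ a : V n, ∀ x, l x = a ⬝ᵥ x + l 0 := by
  let f : V n →+ ZMod 2 :=
    { toFun := fun x => l x + l 0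
      map_zero' := by
        have : ∀ c : ZMod 2, c + c = 0 := by decide
        exact this _
      map_add' := by
        intro x y
        have h := hl x y 0
        rw [add_zero] at h
        show l (x + y) + l 0 = _
        rw [h]
        have : ∀ a b c : ZMod 2, a + b + c + c = (a + c) + (b + c) := by decide
        exact this _ _ _ }
  let g : V n →ₗ[ZMod 2] ZMod 2 := f.toZModLinearMap 2
  refine ⟨fun i => g (Pi.single i 1), fun x => ?_⟩
  have h1 : g x = (fun i => g (Pi.single i 1)) ⬝ᵥ x := by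
    rw [LinearMap.pi_apply_eq_sum_univ g x]
    unfold dotProduct
    apply sum_congr rfl
    intro i _
    rw [smul_eq_mul, mul_comm]
    congr 2
    funext j
    simp [Pi.single_apply, eq_comm]
  rw [← h1]
  show l x = l x + l 0 + l 0
  have : ∀ a c : ZMod 2, a = a + c + c := by decide
  exact this _ _

theorem gap {F : Finset (Cl n)} {M u : ℕ}
    (hexp : ∀ J ⊆ F, J.card ≤ 2 * M → 3 * J.card ≤ 2 * (VarsF J).card)
    (hu : 2 * u ≤ M) {S : Finset (V n → ZMod 2)} (hS : S.card ≤ u) (hSa : ∀ l ∈ S, IsAff l)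
    {z : V n} (hg : Good F M S z) : Good F (2 * M) S z := by
  intro I hIF hI
  choose! a ha using fun l (hl : l ∈ S) => (hSa l hl).exists_coeff
  set L : Submodule (ZMod 2) (V n) := Submodule.span (ZMod 2) ((S.image a : Finset (V n)) : Set (V n)) with hL
  have hLr : Module.finrank (ZMod 2) L ≤ u :=
    (finrank_span_finset_le_card (R := ZMod 2) (S.image a)).trans (card_image_le.trans hS)
  set R : Finset (Cl n) → ℤ := fun J => (Module.finrank (ZMod 2) ↥(L ⊔ ESp J) : ℤ) - J.card with hR
  obtain ⟨J0, hJ0, hmin⟩ := exists_min_image I.powerset R ⟨∅, by simp⟩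
  rw [mem_powerset] at hJ0
  have hJ0M : J0.card ≤ M := by
    have h1 := hmin ∅ (by simp)
    have e0 : Module.finrank (ZMod 2) ↥(L ⊔ ESp (∅ : Finset (Cl n))) =
        Module.finrank (ZMod 2) L := by rw [ESp_empty, sup_bot_eq]
    simp only [hR, card_empty] at h1
    rw [e0] at h1
    have h2 := hexp J0 (hJ0.trans hIF) ((card_le_card hJ0).trans hI)
    have h3 := card_le_finrank_ESp J0
    have h4 : Module.finrank (ZMod 2) (ESp J0) ≤ Module.finrank (ZMod 2) ↥(L ⊔ ESp J0) :=
      Submodule.finrank_mono le_sup_right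
    push_cast at h1
    omega
  obtain ⟨z', hz', hz'2⟩ := hg J0 (hJ0.trans hIF) hJ0M
  obtain ⟨x, hx1, hx2⟩ := hall_tarsi (I \ J0).card (I \ J0) rfl (L ⊔ ESp J0) z' (by
    intro J hJ
    have h1 := hmin (J0 ∪ J) (by
      rw [mem_powerset]
      exact union_subset hJ0 (hJ.trans sdiff_subset))
    have h2 : Disjoint J0 J := by
      rw [disjoint_left]
      intro C hC hC'
      exact (mem_sdiff.1 (hJ hC')).2 hC
    have e0 : Module.finrank (ZMod 2) ↥(L ⊔ ESp (J0 ∪ J)) =
        Module.finrank (ZMod 2) ↥(L ⊔ ESp J0 ⊔ ESp J) := by rw [ESp_union, ← sup_assoc]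
    simp only [hR, card_union_of_disjoint h2] at h1
    rw [e0] at h1
    push_cast at h1
    omega)
  refine ⟨x, ?_, ?_⟩
  · intro l hl
    have h1 := hx1 (a l) (Submodule.mem_sup_left (Submodule.subset_span
      (by exact_mod_cast mem_image_of_mem a hl)))
    rw [ha l hl x, h1, ← ha l hl z']
    exact hz' l hl
  · intro C hC
    by_cases hCJ : C ∈ J0
    · obtain ⟨l, hl, hlx⟩ := hz'2 C hCJ
      refine ⟨l, hl, ?_⟩
      have := hx1 (Pi.single l.1 1) (Submodule.mem_sup_right (single_mem_ESp hCJ hl))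
      rw [single_dot, single_dot] at this
      rw [this, hlx]
    · exact hx2 C (mem_sdiff.2 ⟨hC, hCJ⟩)

theorem extend {F : Finset (Cl n)} {M u : ℕ}
    (hexp : ∀ J ⊆ F, J.card ≤ 2 * M → 3 * J.card ≤ 2 * (VarsF J).card)
    (hu : 2 * u ≤ M) {S : Finset (V n → ZMod 2)} (hS : S.card ≤ u) (hSa : ∀ l ∈ S, IsAff l)
    {z : V n} (hg : Good F M S z) (m : V n → ZMod 2) :
    ∃ z' ∈ Us S z, Good F M (insert m S) z' := by
  have hg2 := gap hexp hu hS hSa hg
  have key : ∃ a : ZMod 2, ∀ I ⊆ F, I.card ≤ M → ∃ x ∈ Us S z, m x = a ∧ ∀ C ∈ I, SatC C x := by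
    by_contra hcon
    push Not at hcon
    obtain ⟨I0, h01, h02, h03⟩ := hcon 0
    obtain ⟨I1, h11, h12, h13⟩ := hcon 1
    obtain ⟨x, hx1, hx2⟩ := hg2 (I0 ∪ I1) (union_subset h01 h11)
      ((card_union_le _ _).trans (by omega))
    rcases zmod2_cases (m x) with h | h
    · obtain ⟨C, hC, hCx⟩ := h03 x hx1 h
      exact hCx (hx2 C (mem_union_left _ hC))
    · obtain ⟨C, hC, hCx⟩ := h13 x hx1 h
      exact hCx (hx2 C (mem_union_right _ hC))
  obtain ⟨a, ha⟩ := key
  obtain ⟨z', hz1, hz2, -⟩ := ha ∅ (by simp) (by simp)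
  refine ⟨z', hz1, ?_⟩
  intro I hI hIM
  obtain ⟨x, hx1, hx2, hx3⟩ := ha I hI hIM
  refine ⟨x, ?_, hx3⟩
  intro l hl
  rcases mem_insert.1 hl with rfl | hl
  · rw [hx2, hz2]
  · rw [hx1 l hl, hz1 l hl]

theorem extend_many {F : Finset (Cl n)} {M : ℕ}
    (hexp : ∀ J ⊆ F, J.card ≤ 2 * M → 3 * J.card ≤ 2 * (VarsF J).card)
    {S : Finset (V n → ZMod 2)} (hSa : ∀ l ∈ S, IsAff l) {z : V n} (hg : Good F M S z)
    (T : Finset (V n → ZMod 2)) (hTa : ∀ l ∈ T, IsAff l) (hu : 2 * (S.card + T.card) ≤ M) :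
    ∃ z' ∈ Us S z, Good F M (T ∪ S) z' := by
  induction T using Finset.induction_on with
  | empty => exact ⟨z, fun _ _ => rfl, by simpa using hg⟩
  | insert a T ha ih =>
    rw [card_insert_of_notMem ha] at hu
    obtain ⟨z', hz1, hz2⟩ := ih (fun l hl => hTa l (mem_insert_of_mem hl)) (by omega)
    obtain ⟨z'', hz3, hz4⟩ := extend (u := (T ∪ S).card) hexp
      (by have := card_union_le T S; omega) le_rfl
      (by
        intro l hl
        rcases mem_union.1 hl with hl | hl
        · exact hTa l (mem_insert_of_mem hl)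
        · exact hSa l hl) hz2 a
    refine ⟨z'', ?_, by rw [insert_union]; exact hz4⟩
    intro l hl
    rw [hz3 l (mem_union_right _ hl), hz1 l hl]

/-- no narrow derivation of falsity from an expanding CNF -/
theorem no_narrow {F : Finset (Cl n)} {M w : ℕ}
    (hexp : ∀ J ⊆ F, J.card ≤ 2 * M → 3 * J.card ≤ 2 * (VarsF J).card)
    (hF : ∀ C ∈ F, C.card ≤ 3) (hw3 : 3 ≤ w) (hw : 6 * w ≤ M) :
    ¬ Der {f | ∃ C ∈ F, f = SatC C} w (fun _ => False) := by
  have hax : ∀ C ∈ F, Narrow w (SatC C) := by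
    intro C hC
    refine ⟨C.image (fun l x => x l.1), card_image_le.trans ((hF C hC).trans hw3), ?_, ?_⟩
    · intro l hl
      obtain ⟨l', hl', rfl⟩ := mem_image.1 hl
      intro x y z
      rfl
    · rintro x y hxy ⟨l, hl, hlx⟩
      refine ⟨l, hl, ?_⟩
      rw [← hlx]
      exact (hxy _ (mem_image_of_mem (fun (l : Fin n × ZMod 2) (x : V n) => x l.1) hl)).symm
  have hnar : ∀ f, Der {f | ∃ C ∈ F, f = SatC C} w f → Narrow w f := by
    intro f hf
    cases hf with
    | ax h =>
      obtain ⟨C, hC, rfl⟩ := h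
      exact hax C hC
    | taut h _ => exact h
    | inf _ _ h _ => exact h
  have key : ∀ f, Der {f | ∃ C ∈ F, f = SatC C} w f → ∀ (S : Finset (V n → ZMod 2)) (z : V n),
      S.card ≤ w → (∀ l ∈ S, IsAff l) → Good F M S z → ∃ x ∈ Us S z, f x := by
    intro f hf
    induction hf with
    | @ax f h =>
      intro S z hS hSa hg
      obtain ⟨C, hC, rfl⟩ := h
      obtain ⟨x, hx1, hx2⟩ := hg {C} (by simpa using hC) (by simp; omega)
      exact ⟨x, hx1, hx2 C (by simp)⟩
    | @taut f h1 h2 =>
      intro S z hS hSa hg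
      exact ⟨z, fun _ _ => rfl, h2 z⟩
    | @inf f g h hf hg' h3 h4 ih1 ih2 =>
      intro S z hS hSa hg
      by_contra hcon
      push Not at hcon
      obtain ⟨S1, hS1, hS1a, hS1n⟩ := hnar f hf
      obtain ⟨S2, hS2, hS2a, hS2n⟩ := hnar g hg'
      obtain ⟨z', hz1, hz2⟩ := extend_many hexp hSa hg (S1 ∪ S2)
        (by
          intro l hl
          rcases mem_union.1 hl with hl | hl
          · exact hS1a l hl
          · exact hS2a l hl) (by have := card_union_le S1 S2; omega)
      have hmono : ∀ S' ⊆ S1 ∪ S2 ∪ S, Good F M S' z' := by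
        intro S' hS' I hI hIM
        obtain ⟨x, hx1, hx2⟩ := hz2 I hI hIM
        exact ⟨x, fun l hl => hx1 l (hS' hl), hx2⟩
      have hz3 := hcon z' hz1
      by_cases hfz : f z'
      · have hgz : ¬ g z' := fun hgz => hz3 (h4 z' hfz hgz)
        obtain ⟨x, hx1, hx2⟩ := ih2 S2 z' hS2 hS2a
          (hmono S2 (fun l hl => mem_union_left _ (mem_union_right _ hl)))
        exact hgz (hS2n x z' hx1 hx2)
      · obtain ⟨x, hx1, hx2⟩ := ih1 S1 z' hS1 hS1a
          (hmono S1 (fun l hl => mem_union_left _ (mem_union_left _ hl)))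
        exact hfz (hS1n x z' hx1 hx2)
  intro hfalse
  have hg0 : Good F M ∅ (0 : V n) := by
    intro I hI hIM
    obtain ⟨x, -, hx⟩ := hall_tarsi I.card I rfl ⊥ 0 (by
      intro J hJ
      have h2 := hexp J (hJ.trans hI) ((card_le_card hJ).trans (by omega))
      have h3 := card_le_finrank_ESp J
      rw [bot_sup_eq, finrank_bot]
      omega)
    exact ⟨x, by simp [Us], hx⟩
  obtain ⟨x, -, hx⟩ := key _ hfalse ∅ 0 (by simp) (by simp) hg0
  exact hx

end

end Pool.Agent.H15
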