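import Mathlib

/-! Narrow derivations over F_2-affine forms and the size-width induction. -/

namespace Pool.Agent.H15

open Finset

noncomputable section

open Classical

/-- assignments -/
abbrev V (n : ℕ) := Fin n → ZMod 2

variable {n : ℕ}

/-- affine functions on `V n` -/
def IsAff (f : V n → ZMod 2) : Prop := ∀ x y z, f (x + y + z) = f x + f y + f z

/-- the predicate `f` depends only on the values of at most `w` affine functions -/
def Narrow (w : ℕ) (f : V n → Prop) : Prop :=
  ∃ S : Finset (V n → ZMod 2), S.card ≤ w ∧ (∀ l ∈ S, IsAff l) ∧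
    ∀ x y, (∀ l ∈ S, l x = l y) → f x → f y

/-- narrow semantic derivations -/
inductive Der (A : Set (V n → Prop)) (w : ℕ) : (V n → Prop) → Prop
  | ax {f} : f ∈ A → Der A w f
  | taut {f} : Narrow w f → (∀ x, f x) → Der A w f
  | inf {f g h} : Der A w f → Der A w g → Narrow w h → (∀ x, f x → g x → h x) → Der A w h

lemma Narrow.mono {w w' : ℕ} {f : V n → Prop} (h : Narrow w f) (hw : w ≤ w') : Narrow w' f := by
  obtain ⟨S, h1, h2, h3⟩ := h
  exact ⟨S, h1.trans hw, h2, h3⟩

lemma Der.mono {A : Set (V n → Prop)} {w w' : ℕ} (hw : w ≤ w') {f : V n → Prop}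
    (h : Der A w f) : Der A w' f := by
  induction h with
  | ax h => exact Der.ax h
  | taut h1 h2 => exact Der.taut (h1.mono hw) h2
  | inf _ _ h3 h4 ih1 ih2 => exact Der.inf ih1 ih2 (h3.mono hw) h4

lemma narrow_and {w w' : ℕ} {f g : V n → Prop} (hf : Narrow w f) (hg : Narrow w' g) :
    Narrow (w + w') (fun x => f x ∧ g x) := by
  obtain ⟨S, h1, h2, h3⟩ := hf
  obtain ⟨S', h1', h2', h3'⟩ := hg
  refine ⟨S ∪ S', ?_, ?_, ?_⟩
  · exact (card_union_le _ _).trans (Nat.add_le_add h1 h1')
  · intro l hl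
    rcases mem_union.1 hl with hl | hl
    · exact h2 l hl
    · exact h2' l hl
  · rintro x y hxy ⟨ha, hb⟩
    exact ⟨h3 x y (fun l hl => hxy l (mem_union_left _ hl)) ha,
      h3' x y (fun l hl => hxy l (mem_union_right _ hl)) hb⟩

lemma narrow_or {w w' : ℕ} {f g : V n → Prop} (hf : Narrow w f) (hg : Narrow w' g) :
    Narrow (w + w') (fun x => f x ∨ g x) := by
  obtain ⟨S, h1, h2, h3⟩ := hf
  obtain ⟨S', h1', h2', h3'⟩ := hg
  refine ⟨S ∪ S', ?_, ?_, ?_⟩
  · exact (card_union_le _ _).trans (Nat.add_le_add h1 h1')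
  · intro l hl
    rcases mem_union.1 hl with hl | hl
    · exact h2 l hl
    · exact h2' l hl
  · rintro x y hxy (ha | hb)
    · exact Or.inl (h3 x y (fun l hl => hxy l (mem_union_left _ hl)) ha)
    · exact Or.inr (h3' x y (fun l hl => hxy l (mem_union_right _ hl)) hb)

/-- conjunctions of finite sets of derivable narrow predicates -/
lemma Der.conj {A : Set (V n → Prop)} {w k : ℕ} (T : Finset (V n → Prop))
    (hT : ∀ f ∈ T, Der A w f) (hk : ∀ f ∈ T, Narrow k f) (hw : T.card * k ≤ w) :
    Narrow (T.card * k) (fun x => ∀ f ∈ T, f x) ∧ Der A w (fun x => ∀ f ∈ T, f x) := by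
  induction T using Finset.induction_on with
  | empty =>
    have h0 : Narrow ((∅ : Finset (V n → Prop)).card * k)
        (fun x => ∀ f ∈ (∅ : Finset (V n → Prop)), f x) := by
      refine ⟨∅, by simp, by simp, by simp⟩
    exact ⟨h0, Der.taut (h0.mono hw) (by simp)⟩
  | insert a T ha ih =>
    rw [card_insert_of_notMem ha] at hw ⊢
    have hw' : T.card * k ≤ w := by nlinarith
    obtain ⟨h1, h2⟩ := ih (fun f hf => hT f (mem_insert_of_mem hf))
      (fun f hf => hk f (mem_insert_of_mem hf)) hw'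
    have h3 : Narrow ((T.card + 1) * k) (fun x => ∀ f ∈ insert a T, f x) := by
      have := narrow_and (hk a (mem_insert_self _ _)) h1
      have h4 : k + T.card * k = (T.card + 1) * k := by ring
      rw [h4] at this
      have h5 : (fun x => a x ∧ ∀ f ∈ T, f x) = (fun x => ∀ f ∈ insert a T, f x) := by
        funext x
        simp
      rwa [h5] at this
    refine ⟨h3, ?_⟩
    refine Der.inf (hT a (mem_insert_self _ _)) h2 (h3.mono hw) ?_
    intro x hx hy f hf
    rcases mem_insert.1 hf with rfl | hf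
    · exact hx
    · exact hy f hf

/-! ### Retractions -/

lemma zmod2_cases (a : ZMod 2) : a = 0 ∨ a = 1 := by
  revert a; decide

lemma zmod2_add_ne {a b : ZMod 2} (h : a ≠ b) : a + b = 1 := by
  revert a b; decide

lemma zmod2_ne_one {a : ZMod 2} (h : a ≠ 1) : a = 0 := by
  revert a; decide

lemma zmod2_ne_zero {a : ZMod 2} (h : a ≠ 0) : a = 1 := by
  revert a; decide

lemma exists_dir {l : V n → ZMod 2} (hl : IsAff l) {x0 y0 : V n} (h : l x0 ≠ l y0) :
    ∃ v : V n, ∀ x, l (x + v) = l x + 1 := by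
  refine ⟨x0 + y0, fun x => ?_⟩
  rw [← add_assoc, hl, add_assoc, zmod2_add_ne h]

/-- the retraction of `V n` onto `{l = c}` in direction `v` -/
def retr (l : V n → ZMod 2) (v : V n) (c : ZMod 2) (x : V n) : V n := x + (l x + c) • v

lemma retr_eq {l : V n → ZMod 2} {v : V n} {c : ZMod 2} {x : V n} (h : l x = c) :
    retr l v c x = x := by
  unfold retr
  rw [h]
  have : ∀ c : ZMod 2, c + c = 0 := by decide
  simp [this]

lemma retr_val {l : V n → ZMod 2} {v : V n} (hv : ∀ x, l (x + v) = l x + 1) (c : ZMod 2)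
    (x : V n) : l (retr l v c x) = c := by
  by_cases h : l x = c
  · rw [retr_eq h, h]
  · unfold retr
    rw [zmod2_add_ne h, one_smul, hv]
    have : ∀ a b : ZMod 2, a ≠ b → a + 1 = b := by decide
    exact this _ _ h

lemma retr_aff {l : V n → ZMod 2} (hl : IsAff l) (v : V n) (c : ZMod 2) (x y z : V n) :
    retr l v c (x + y + z) = retr l v c x + retr l v c y + retr l v c z := by
  unfold retr
  rw [hl]
  have : l x + l y + l z + c = (l x + c) + (l y + c) + (l z + c) := by
    generalize l x = p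
    generalize l y = q
    generalize l z = r
    revert p q r c
    decide
  rw [this]
  simp only [add_smul]
  abel

lemma IsAff.comp_retr {l m : V n → ZMod 2} (hm : IsAff m) (hl : IsAff l) (v : V n) (c : ZMod 2) :
    IsAff (fun x => m (retr l v c x)) := by
  intro x y z
  show m (retr l v c (x + y + z)) = _
  rw [retr_aff hl, hm]

lemma Narrow.comp_retr {l : V n → ZMod 2} (hl : IsAff l) (v : V n) (c : ZMod 2) {w : ℕ}
    {f : V n → Prop} (hf : Narrow w f) : Narrow w (fun x => f (retr l v c x)) := by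
  obtain ⟨S, h1, h2, h3⟩ := hf
  refine ⟨S.image (fun m x => m (retr l v c x)), card_image_le.trans h1, ?_, ?_⟩
  · intro m hm
    obtain ⟨m', hm', rfl⟩ := mem_image.1 hm
    exact (h2 m' hm').comp_retr hl v c
  · intro x y hxy
    apply h3
    intro m hm
    exact hxy _ (mem_image_of_mem (fun m x => m (retr l v c x)) hm)

/-- restriction of a system of predicates -/
def restr (A : Set (V n → Prop)) (p : V n → V n) : Set (V n → Prop) :=
  (fun a x => a (p x)) '' A

lemma combine1 {l : V n → ZMod 2} (hl : IsAff l) {v : V n}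
    {A : Set (V n → Prop)} {k w : ℕ} (hA : ∀ a ∈ A, Narrow k a) (hk : k ≤ w)
    {f : V n → Prop} (h : Der (restr A (retr l v 1)) w f) :
    Der A (w + 1) (fun x => l x = 1 → f x) := by
  have key : ∀ {g : V n → Prop} {u : ℕ}, Narrow u g → Narrow (u + 1) (fun x => l x = 1 → g x) := by
    intro g u hg
    have h1 : Narrow 1 (fun x => l x ≠ 1) := by
      refine ⟨{l}, by simp, by simpa using hl, ?_⟩
      intro x y hxy hx
      rw [← hxy l (by simp)]
      exact hx
    have := narrow_or hg h1
    refine (?_ : (fun x => g x ∨ l x ≠ 1) = (fun x => l x = 1 → g x)) ▸ this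
    funext x
    apply propext
    tauto
  induction h with
  | @ax f hf =>
    obtain ⟨a, ha, rfl⟩ := hf
    refine Der.inf (Der.ax ha) (Der.ax ha)
      ((key ((hA a ha).comp_retr hl v 1)).mono (by omega)) ?_
    intro x hx _ hx1
    show a (retr l v 1 x)
    rw [retr_eq hx1]
    exact hx
  | @taut f h1 h2 => exact Der.taut (key h1) (fun x _ => h2 x)
  | @inf f g h _ _ h3 h4 ih1 ih2 =>
    exact Der.inf ih1 ih2 (key h3) (fun x hx hy h1 => h4 x (hx h1) (hy h1))

lemma combine0 {l : V n → ZMod 2} (hl : IsAff l) {v : V n}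
    {A : Set (V n → Prop)} {k w : ℕ} (hA : ∀ a ∈ A, Narrow k a) (hk : k ≤ w)
    (h0 : Der A w (fun x => l x = 1 → False))
    {f : V n → Prop} (h : Der (restr A (retr l v 0)) w f) :
    Der A w f := by
  induction h with
  | @ax f hf =>
    obtain ⟨a, ha, rfl⟩ := hf
    refine Der.inf (Der.ax ha) h0 (((hA a ha).comp_retr hl v 0).mono hk) ?_
    intro x hx hx1
    show a (retr l v 0 x)
    rw [retr_eq (zmod2_ne_one hx1)]
    exact hx
  | @taut f h1 h2 => exact Der.taut h1 h2
  | @inf f g h _ _ h3 h4 ih1 ih2 => exact Der.inf ih1 ih2 h3 h4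

lemma combine {l : V n → ZMod 2} (hl : IsAff l) {v : V n}
    {A : Set (V n → Prop)} {k w : ℕ} (hA : ∀ a ∈ A, Narrow k a) (hk : k ≤ w)
    (h1 : Der (restr A (retr l v 1)) w (fun _ => False))
    (h0 : Der (restr A (retr l v 0)) (w + 1) (fun _ => False)) :
    Der A (w + 1) (fun _ => False) :=
  combine0 hl hA (by omega) (combine1 hl hA hk h1) h0

/-! ### The induction -/

/-- nonconstant functions -/
def NC (l : V n → ZMod 2) : Prop := ∃ x y, l x ≠ l y

/-- a line: clause over literals `l = 1`, `l ∈ K`, or the extra predicate `G` -/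
def lin (K : Finset (V n → ZMod 2)) (G : V n → Prop) (x : V n) : Prop :=
  (∃ l ∈ K, l x = 1) ∨ G x

/-- fat: more than `d` nonconstant literals and no literal identically true -/
def Fat (d : ℕ) (K : Finset (V n → ZMod 2)) : Prop :=
  d < (K.filter NC).card ∧ ∀ l ∈ K, ∃ x, l x ≠ 1

lemma narrow_of_not_fat {d r : ℕ} {K : Finset (V n → ZMod 2)} {G : V n → Prop}
    (hK : ∀ l ∈ K, IsAff l) (hG : Narrow r G) (h : ¬ Fat d K) : Narrow (d + r) (lin K G) := by
  unfold Fat at h
  by_cases h1 : ∀ l ∈ K, ∃ x, l x ≠ 1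
  · have h2 : (K.filter NC).card ≤ d := by
      by_contra h3
      exact h ⟨not_le.1 h3, h1⟩
    have h3 : Narrow d (fun x => ∃ l ∈ K, l x = 1) := by
      refine ⟨K.filter NC, h2, fun l hl => hK l (mem_filter.1 hl).1, ?_⟩
      rintro x y hxy ⟨l, hl, hlx⟩
      by_cases hnc : NC l
      · exact ⟨l, hl, by rw [← hxy l (mem_filter.2 ⟨hl, hnc⟩)]; exact hlx⟩
      · exfalso
        obtain ⟨z, hz⟩ := h1 l hl
        apply hnc
        exact ⟨z, x, by rw [hlx]; exact hz⟩
    exact narrow_or h3 hG
  · push Not at h1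
    obtain ⟨l, hl, hl1⟩ := h1
    refine ⟨∅, by simp, by simp, ?_⟩
    intro x y _ _
    exact Or.inl ⟨l, hl, hl1 y⟩

lemma no_fat {s h q k d r : ℕ} {A : Set (V n → Prop)} (hA : ∀ a ∈ A, Narrow k a)
    {Λ : Finset (V n → ZMod 2)} (hΛ : ∀ l ∈ Λ, IsAff l)
    {K : Fin s → Finset (V n → ZMod 2)} (hK : ∀ i, K i ⊆ Λ)
    {G : Fin s → V n → Prop} (hG : ∀ i, Narrow r (G i))
    (hinf : ∀ i, ∃ P : Finset (Fin s), P.card ≤ h ∧ (∀ j ∈ P, j < i) ∧ ∃ Q : Finset (V n → Prop),
      Q.card ≤ q ∧ (∀ a ∈ Q, a ∈ A) ∧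
      ∀ x, (∀ j ∈ P, lin (K j) (G j) x) → (∀ a ∈ Q, a x) → lin (K i) (G i) x)
    (hfalse : ∃ i, ∀ x, ¬ lin (K i) (G i) x)
    (hfat : ∀ i, ¬ Fat d (K i)) :
    Der A (h * (d + r) + q * k + (d + r) + k) (fun _ => False) := by
  set w := h * (d + r) + q * k + (d + r) + k with hw
  have hnar : ∀ i, Narrow (d + r) (lin (K i) (G i)) := fun i =>
    narrow_of_not_fat (fun l hl => hΛ l (hK i hl)) (hG i) (hfat i)
  have hall : ∀ i, Der A w (lin (K i) (G i)) := by
    intro i
    induction i using WellFoundedLT.induction with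
    | ind i ih =>
      obtain ⟨P, hP, hPi, Q, hQ, hQA, himp⟩ := hinf i
      have h1 := Der.conj (A := A) (w := w) (k := d + r) (P.image (fun j => lin (K j) (G j)))
        (by
          intro f hf
          obtain ⟨j, hj, rfl⟩ := mem_image.1 hf
          exact ih j (hPi j hj))
        (by
          intro f hf
          obtain ⟨j, hj, rfl⟩ := mem_image.1 hf
          exact hnar j)
        (by
          have := card_image_le (s := P) (f := fun j => lin (K j) (G j))
          have h3 : (P.image (fun j => lin (K j) (G j))).card * (d + r) ≤ h * (d + r) :=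
            Nat.mul_le_mul_right _ (this.trans hP)
          omega)
      have h2 := Der.conj (A := A) (w := w) (k := k) Q (fun a ha => Der.ax (hQA a ha))
        (fun a ha => hA a (hQA a ha))
        (by
          have h3 : Q.card * k ≤ q * k := Nat.mul_le_mul_right _ hQ
          omega)
      refine Der.inf h1.2 h2.2 ((hnar i).mono (by omega)) ?_
      intro x hx hy
      apply himp x _ hy
      intro j hj
      exact hx _ (mem_image_of_mem (fun j => lin (K j) (G j)) hj)
  obtain ⟨i, hi⟩ := hfalse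
  refine Der.inf (hall i) (hall i) ⟨∅, by simp, by simp, by simp⟩ ?_
  intro x hx _
  exact hi x hx

/-- composing all forms of a set with `p` -/
def rs (p : V n → V n) (K : Finset (V n → ZMod 2)) : Finset (V n → ZMod 2) :=
  K.image (fun m x => m (p x))

lemma mem_rs {p : V n → V n} {K : Finset (V n → ZMod 2)} {l : V n → ZMod 2} :
    l ∈ rs p K ↔ ∃ m ∈ K, (fun x => m (p x)) = l := by
  unfold rs
  rw [mem_image]

lemma mem_rs_of_mem {p : V n → V n} {K : Finset (V n → ZMod 2)} {m : V n → ZMod 2}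
    (h : m ∈ K) : (fun x => m (p x)) ∈ rs p K := mem_rs.2 ⟨m, h, rfl⟩

lemma card_rs_le (p : V n → V n) (K : Finset (V n → ZMod 2)) : (rs p K).card ≤ K.card :=
  card_image_le

lemma lin_restr (K : Finset (V n → ZMod 2)) (G : V n → Prop) (p : V n → V n) (x : V n) :
    lin (rs p K) (fun x => G (p x)) x ↔ lin K G (p x) := by
  unfold lin
  constructor
  · rintro (⟨l, hl, hlx⟩ | hx)
    · obtain ⟨m, hm, rfl⟩ := mem_rs.1 hl
      exact Or.inl ⟨m, hm, hlx⟩
    · exact Or.inr hx
  · rintro (⟨l, hl, hlx⟩ | hx)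
    · exact Or.inl ⟨_, mem_rs_of_mem hl, hlx⟩
    · exact Or.inr hx

/-- composing with `p`: nonconstant elements come from nonconstant elements, except those
that become constant -/
lemma nc_restr_card {Λ : Finset (V n → ZMod 2)} {p : V n → V n} {l : V n → ZMod 2}
    {c : ZMod 2} (hl : l ∈ Λ) (hnc : NC l) (hp : ∀ x, l (p x) = c) :
    ((rs p Λ).filter NC).card + 1 ≤ (Λ.filter NC).card := by
  have h1 : ((rs p Λ).filter NC) ⊆
      rs p ((Λ.filter NC).erase l) := by
    intro m hm
    obtain ⟨hm1, hm2⟩ := mem_filter.1 hm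
    obtain ⟨m', hm', rfl⟩ := mem_rs.1 hm1
    obtain ⟨x, y, hxy⟩ := hm2
    refine mem_rs_of_mem (mem_erase.2 ⟨?_, mem_filter.2 ⟨hm', ?_⟩⟩)
    · rintro rfl
      apply hxy
      show m' (p x) = m' (p y)
      rw [hp, hp]
    · exact ⟨p x, p y, hxy⟩
  have h2 := (card_le_card h1).trans (card_rs_le _ _)
  have h3 : l ∈ Λ.filter NC := mem_filter.2 ⟨hl, hnc⟩
  rw [card_erase_of_mem h3] at h2
  have h4 : 0 < (Λ.filter NC).card := card_pos.2 ⟨l, h3⟩
  omega

lemma fat_restr {d : ℕ} {K : Finset (V n → ZMod 2)} {p : V n → V n}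
    (h : Fat d (rs p K)) : Fat d K ∧ ∀ l ∈ K, ∃ x, l (p x) ≠ 1 := by
  obtain ⟨h1, h2⟩ := h
  have h3 : ∀ l ∈ K, ∃ x, l (p x) ≠ 1 := fun l hl =>
    h2 _ (mem_rs_of_mem hl)
  refine ⟨⟨?_, ?_⟩, h3⟩
  · have h4 : ((rs p K).filter NC) ⊆
        rs p (K.filter NC) := by
      intro m hm
      obtain ⟨hm1, hm2⟩ := mem_filter.1 hm
      obtain ⟨m', hm', rfl⟩ := mem_rs.1 hm1
      obtain ⟨x, y, hxy⟩ := hm2
      exact mem_rs_of_mem (mem_filter.2 ⟨hm', p x, p y, hxy⟩)
    exact lt_of_lt_of_le h1 ((card_le_card h4).trans (card_rs_le _ _))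
  · intro l hl
    obtain ⟨x, hx⟩ := h3 l hl
    exact ⟨p x, hx⟩

lemma exists_frequent {s d N0 : ℕ} {Λ : Finset (V n → ZMod 2)} (hΛN : (Λ.filter NC).card ≤ N0)
    {K : Fin s → Finset (V n → ZMod 2)} (hK : ∀ i, K i ⊆ Λ)
    (hne : (univ.filter (fun i => Fat d (K i))).Nonempty) :
    ∃ l ∈ Λ, NC l ∧
      d * (univ.filter (fun i => Fat d (K i))).card ≤
        N0 * (univ.filter (fun i => Fat d (K i) ∧ l ∈ K i)).card := by
  set D := univ.filter (fun i => Fat d (K i)) with hD
  by_contra hcon
  push Not at hcon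
  have h1 : ∑ l ∈ Λ.filter NC, (univ.filter (fun i => Fat d (K i) ∧ l ∈ K i)).card =
      ∑ i ∈ D, ((K i).filter NC).card := by
    have e1 : ∀ l ∈ Λ.filter NC, (univ.filter (fun i => Fat d (K i) ∧ l ∈ K i)).card =
        ∑ i ∈ D, if l ∈ K i then 1 else 0 := by
      intro l _
      rw [← filter_filter, card_filter]
    have e2 : ∀ i ∈ D, ((K i).filter NC).card =
        ∑ l ∈ Λ.filter NC, if l ∈ K i then 1 else 0 := by
      intro i _
      rw [← card_filter]
      congr 1
      ext l
      simp only [mem_filter]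
      constructor
      · rintro ⟨ha, hb⟩
        exact ⟨⟨hK i ha, hb⟩, ha⟩
      · rintro ⟨⟨_, hb⟩, hc⟩
        exact ⟨hc, hb⟩
    rw [sum_congr rfl e1, sum_congr rfl e2, sum_comm]
  have h2 : d * D.card ≤ ∑ i ∈ D, ((K i).filter NC).card := by
    rw [mul_comm, ← smul_eq_mul, ← sum_const]
    apply sum_le_sum
    intro i hi
    exact (mem_filter.1 hi).2.1.le
  have hnonempty : (Λ.filter NC).Nonempty := by
    obtain ⟨i, hi⟩ := hne
    have := (mem_filter.1 hi).2.1
    have h3 : 0 < ((K i).filter NC).card := by omega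
    obtain ⟨l, hl⟩ := card_pos.1 h3
    exact ⟨l, mem_filter.2 ⟨hK i (mem_filter.1 hl).1, (mem_filter.1 hl).2⟩⟩
  have h3 : N0 * ∑ l ∈ Λ.filter NC, (univ.filter (fun i => Fat d (K i) ∧ l ∈ K i)).card <
      (Λ.filter NC).card * (d * D.card) := by
    rw [mul_sum, ← smul_eq_mul (Λ.filter NC).card, ← sum_const]
    apply sum_lt_sum_of_nonempty hnonempty
    intro l hl
    exact hcon l (mem_filter.1 hl).1 (mem_filter.1 hl).2
  rw [h1] at h3
  have h4 : (Λ.filter NC).card * (d * D.card) ≤ N0 * (d * D.card) :=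
    Nat.mul_le_mul_right _ hΛN
  have h5 : N0 * (d * D.card) ≤ N0 * ∑ i ∈ D, ((K i).filter NC).card :=
    Nat.mul_le_mul_left _ h2
  omega

theorem main_ind (s h q k d r N0 : ℕ) :
    ∀ (N b : ℕ), N ≤ N0 → ∀ (A : Set (V n → Prop)), (∀ a ∈ A, Narrow k a) →
    ∀ (Λ : Finset (V n → ZMod 2)), (∀ l ∈ Λ, IsAff l) → (Λ.filter NC).card ≤ N →
    ∀ (K : Fin s → Finset (V n → ZMod 2)), (∀ i, K i ⊆ Λ) →
    ∀ (G : Fin s → V n → Prop), (∀ i, Narrow r (G i)) →
    (∀ i, ∃ P : Finset (Fin s), P.card ≤ h ∧ (∀ j ∈ P, j < i) ∧ ∃ Q : Finset (V n → Prop),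
      Q.card ≤ q ∧ (∀ a ∈ Q, a ∈ A) ∧
      ∀ x, (∀ j ∈ P, lin (K j) (G j) x) → (∀ a ∈ Q, a x) → lin (K i) (G i) x) →
    (∃ i, ∀ x, ¬ lin (K i) (G i) x) →
    ((univ.filter (fun i => Fat d (K i))).card : ℝ) * (1 - d / N0) ^ b < 1 →
    Der A (h * (d + r) + q * k + (d + r) + k + b) (fun _ => False) := by
  intro N
  induction N with
  | zero =>
    intro b hN A hA Λ hΛ hΛN K hK G hG hinf hfalse hfat
    refine (no_fat (d := d) hA hΛ hK hG hinf hfalse ?_).mono (by omega)
    intro i hi
    have h1 := hi.1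
    have h2 : ((K i).filter NC).card ≤ (Λ.filter NC).card :=
      card_le_card (filter_subset_filter _ (hK i))
    omega
  | succ N ihN =>
    intro b hN A hA Λ hΛ hΛN K hK G hG hinf hfalse hfat
    by_cases hne : (univ.filter (fun i => Fat d (K i))).Nonempty
    · obtain ⟨l, hlΛ, hnc, hfreq⟩ := exists_frequent (hΛN.trans hN) hK hne
      have hl : IsAff l := hΛ l hlΛ
      obtain ⟨x0, y0, hxy0⟩ := hnc
      obtain ⟨v, hv⟩ := exists_dir hl hxy0
      have hnc : NC l := ⟨x0, y0, hxy0⟩
      -- restricted refutations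
      have hstep : ∀ c : ZMod 2, ∀ b' : ℕ,
          ((univ.filter (fun i => Fat d (rs (retr l v c) (K i)))).card : ℝ)
            * (1 - d / N0) ^ b' < 1 →
          Der (restr A (retr l v c)) (h * (d + r) + q * k + (d + r) + k + b')
            (fun _ => False) := by
        intro c b' hb'
        apply ihN b' (by omega) (restr A (retr l v c)) _
          (rs (retr l v c) Λ) _ _
          (fun i => rs (retr l v c) (K i)) _
          (fun i x => G i (retr l v c x)) _ _ _ hb'
        · rintro a ⟨a', ha', rfl⟩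
          exact (hA a' ha').comp_retr hl v c
        · intro m hm
          obtain ⟨m', hm', rfl⟩ := mem_rs.1 hm
          exact (hΛ m' hm').comp_retr hl v c
        · have := nc_restr_card (p := retr l v c) hlΛ hnc (retr_val hv c)
          omega
        · intro i m hm
          obtain ⟨m', hm', rfl⟩ := mem_rs.1 hm
          exact mem_rs_of_mem (hK i hm')
        · intro i
          exact (hG i).comp_retr hl v c
        · intro i
          obtain ⟨P, hP, hPi, Q, hQ, hQA, himp⟩ := hinf i
          refine ⟨P, hP, hPi, Q.image (fun a x => a (retr l v c x)), card_image_le.trans hQ,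
            ?_, ?_⟩
          · intro a ha
            obtain ⟨a', ha', rfl⟩ := mem_image.1 ha
            exact ⟨a', hQA a' ha', rfl⟩
          · intro x hx hy
            rw [lin_restr]
            apply himp
            · intro j hj
              rw [← lin_restr]
              exact hx j hj
            · intro a ha
              exact hy _ (mem_image_of_mem (fun a x => a (retr l v c x)) ha)
        · obtain ⟨i, hi⟩ := hfalse
          refine ⟨i, fun x => ?_⟩
          rw [lin_restr]
          exact hi _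
      -- sizes
      have hdN : (d : ℝ) ≤ N0 := by
        obtain ⟨i, hi⟩ := hne
        have h1 := (mem_filter.1 hi).2.1
        have h2 : ((K i).filter NC).card ≤ (Λ.filter NC).card :=
          card_le_card (filter_subset_filter _ (hK i))
        exact_mod_cast (by omega : d ≤ N0)
      have hN0 : (0 : ℝ) < N0 := by
        exact_mod_cast (by omega : 0 < N0)
      have hfac : (0 : ℝ) ≤ 1 - d / N0 := by
        rw [sub_nonneg, div_le_one hN0]
        exact hdN
      set D := univ.filter (fun i => Fat d (K i)) with hD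
      rcases Nat.eq_zero_or_pos b with rfl | hb
      · exfalso
        have : (1 : ℝ) ≤ (D.card : ℝ) := by exact_mod_cast hne.card_pos
        simp at hfat
        rw [hfat] at hne
        simp at hne
      · obtain ⟨b', rfl⟩ : ∃ b', b = b' + 1 := ⟨b - 1, by omega⟩
        have h0 := hstep 0 (b' + 1) (by
          refine lt_of_le_of_lt ?_ hfat
          apply mul_le_mul_of_nonneg_right _ (pow_nonneg hfac _)
          norm_cast
          apply card_le_card
          intro i hi
          rw [hD]
          exact mem_filter.2 ⟨mem_univ _, (fat_restr (mem_filter.1 hi).2).1⟩)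
        have h1 := hstep 1 b' (by
          refine lt_of_le_of_lt ?_ hfat
          rw [pow_succ', ← mul_assoc]
          apply mul_le_mul_of_nonneg_right _ (pow_nonneg hfac _)
          have hsub : (univ.filter (fun i => Fat d (rs (retr l v 1) (K i)))) ⊆
              D \ (univ.filter (fun i => Fat d (K i) ∧ l ∈ K i)) := by
            intro i hi
            have hi' := fat_restr (mem_filter.1 hi).2
            refine mem_sdiff.2 ⟨mem_filter.2 ⟨mem_univ _, hi'.1⟩, ?_⟩
            intro hi2
            obtain ⟨x, hx⟩ := hi'.2 l (mem_filter.1 hi2).2.2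
            exact hx (retr_val hv 1 x)
          have hsub2 : (univ.filter (fun i => Fat d (K i) ∧ l ∈ K i)) ⊆ D := by
            intro i hi
            exact mem_filter.2 ⟨mem_univ _, (mem_filter.1 hi).2.1⟩
          have hc := card_le_card hsub
          rw [card_sdiff_of_subset hsub2] at hc
          have hc2 := card_le_card hsub2
          have hc3 : ((univ.filter (fun i => Fat d
              (rs (retr l v 1) (K i)))).card : ℝ) ≤
              D.card - (univ.filter (fun i => Fat d (K i) ∧ l ∈ K i)).card := by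
            rw [← Nat.cast_sub hc2]
            exact_mod_cast hc
          refine hc3.trans ?_
          have hfreq' : (d : ℝ) * D.card ≤
              N0 * (univ.filter (fun i => Fat d (K i) ∧ l ∈ K i)).card := by
            exact_mod_cast hfreq
          have : (d : ℝ) / N0 * D.card ≤
              (univ.filter (fun i => Fat d (K i) ∧ l ∈ K i)).card := by
            rw [div_mul_eq_mul_div, div_le_iff₀ hN0]
            linarith
          nlinarith)
        have hk' : k ≤ h * (d + r) + q * k + (d + r) + k + b' := by omega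
        exact combine hl hA hk' h1 h0
    · refine (no_fat (d := d) hA hΛ hK hG hinf hfalse ?_).mono (by omega)
      intro i hi
      exact hne ⟨i, mem_filter.2 ⟨mem_univ _, hi⟩⟩

end

end Pool.Agent.H15
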