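import Pool.Agent.H15.Expander2

/-!
A lower bound for a DAG-like proof system extending resolution: resolution over F_2-linear
forms with few distinct forms, extended by arbitrary Boolean functions of linearly many parities
and by semantic inference.
-/

namespace Pool.Agent.H15.ParityResolutionFile

open Finset

/-- A clause over `n` variables: a finite set of literals `(v, a)`, read as `x_v = a`. -/
abbrev Clause (n : ℕ) := Finset (Fin n × ZMod 2)

/-- The clause `C` is true at the assignment `x`. -/
def Clause.Sat {n : ℕ} (C : Clause n) (x : Fin n → ZMod 2) : Prop := ∃ l ∈ C, x l.1 = l.2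

/-- The parity (F_2-linear form) with coefficient vector `a`. -/
def parity {n : ℕ} (a x : Fin n → ZMod 2) : ZMod 2 := ∑ v, a v * x v

/-- A proof line: a disjunction of parity equations `parity a x = b`, `(a, b) ∈ eqs`,
and of one arbitrary Boolean function `fn` of `r` arbitrary parities `forms`. -/
structure Line (n r : ℕ) where
  eqs : Finset ((Fin n → ZMod 2) × ZMod 2)
  forms : Fin r → Fin n → ZMod 2
  fn : (Fin r → ZMod 2) → Prop

/-- The line is true at the assignment `x`. -/
def Line.Holds {n r : ℕ} (L : Line n r) (x : Fin n → ZMod 2) : Prop :=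
  (∃ e ∈ L.eqs, parity e.1 x = e.2) ∨ L.fn (fun j => parity (L.forms j) x)

/-- `L` is a refutation of the CNF `F` with `s` lines over the set `A` of parities:
the equations of all lines use only parities of `A`, each line is a semantic consequence of
at most `h` earlier lines and at most `q` clauses of `F`, and some line is identically false. -/
def IsRefutation {n r s : ℕ} (F : Finset (Clause n)) (A : Finset (Fin n → ZMod 2)) (h q : ℕ)
    (L : Fin s → Line n r) : Prop :=
  (∀ i, ∀ e ∈ (L i).eqs, e.1 ∈ A) ∧
  (∀ i, ∃ P : Finset (Fin s), P.card ≤ h ∧ (∀ j ∈ P, j < i) ∧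
    ∃ Q : Finset (Clause n), Q ⊆ F ∧ Q.card ≤ q ∧
      ∀ x, (∀ j ∈ P, (L j).Holds x) → (∀ C ∈ Q, C.Sat x) → (L i).Holds x) ∧
  ∃ i, ∀ x, ¬ (L i).Holds x

open Pool.Agent.H15 in
set_option maxHeartbeats 4000000 in
theorem result :
    ∃ c : ℝ, 0 < c ∧ ∃ N : ℕ, ∀ n : ℕ, N ≤ n → ∃ F : Finset (Clause n),
      F.card ≤ 8 * n ∧
      (∀ C ∈ F, C.card = 3 ∧ (C.image Prod.fst).card = 3) ∧
      (∀ x : Fin n → ZMod 2, ∃ C ∈ F, ¬ C.Sat x) ∧
      ∀ (A : Finset (Fin n → ZMod 2)) (h q r s : ℕ) (L : Fin s → Line n r),
        ((h : ℝ) + 1) * (r + 1) ≤ c * n → (q : ℝ) ≤ c * n →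
        IsRefutation F A h q L →
        (2 : ℝ) ^ (c * n ^ 2 / ((h + 1) * A.card)) ≤ s := by
  classical
  refine ⟨1 / 10 ^ 20, by norm_num, 10 ^ 20, fun n hn => ?_⟩
  set M : ℕ := n / 18000000 with hM
  have hM1 : 9000000 * (2 * M) ≤ n := by omega
  obtain ⟨F, hF1, hF2, hF3, hF4⟩ := exists_expander (n := n) (K := 2 * M)
    (by omega) hM1
  refine ⟨F, hF1, hF2, hF3, ?_⟩
  intro A h q r s L hhr hq ⟨hA, hinf, hfalse⟩
  by_contra hcon
  push Not at hcon
  have hnr : (10 ^ 20 : ℝ) ≤ n := by exact_mod_cast hn
  have hM2 : (n : ℝ) / 36000000 ≤ M := by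
    have h1 : n ≤ 36000000 * M := by omega
    rw [div_le_iff₀ (by norm_num)]
    have : (n : ℝ) ≤ 36000000 * M := by exact_mod_cast h1
    linarith
  have hMpos : (0 : ℝ) < M := lt_of_lt_of_le (by positivity) hM2
  -- bounds on h, r, q
  have hr0 : (0 : ℝ) ≤ r := Nat.cast_nonneg r
  have hh0 : (0 : ℝ) ≤ h := Nat.cast_nonneg h
  have hcn : (1 / 10 ^ 20 : ℝ) * n ≤ M / 200 := by
    rw [le_div_iff₀ (by norm_num)]
    refine le_trans ?_ hM2
    rw [le_div_iff₀ (by norm_num)]
    nlinarith
  have hq' : 200 * q ≤ M := by
    have : (200 : ℝ) * q ≤ M := by linarith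
    exact_mod_cast this
  have hhr' : 200 * ((h + 1) * (r + 1)) ≤ M := by
    have : (200 : ℝ) * ((h + 1) * (r + 1)) ≤ M := by linarith
    exact_mod_cast this
  have hh1 : 200 * (h + 1) ≤ M := by nlinarith
  -- parameters
  set d : ℕ := M / (48 * (h + 1)) with hd
  set b : ℕ := M / 48 with hb
  have hd1 : 48 * (h + 1) * d ≤ M := Nat.mul_div_le M (48 * (h + 1))
  have hd2 : M < 48 * (h + 1) * (d + 1) := by
    have := Nat.lt_mul_div_succ M (by positivity : 0 < 48 * (h + 1))
    simpa [hd] using this
  have hdpos : 1 ≤ d := by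
    rw [hd]
    apply (Nat.one_le_div_iff (by positivity)).2
    omega
  set w : ℕ := h * (d + r) + q * 3 + (d + r) + 3 + b with hw
  have hw6 : 6 * w ≤ M := by
    have e1 : h * (d + r) + (d + r) = (h + 1) * d + (h + 1) * r := by ring
    have e2 : 48 * ((h + 1) * d) ≤ M := by linarith
    have e3 : 200 * ((h + 1) * r) ≤ M := by nlinarith
    omega
  -- the derivation
  set lit : (Fin n → ZMod 2) × ZMod 2 → V n → ZMod 2 := fun e x => parity e.1 x + e.2 + 1
    with hlit
  have hlit_iff : ∀ e x, lit e x = 1 ↔ parity e.1 x = e.2 := by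
    intro e x
    simp only [hlit]
    generalize parity e.1 x = p
    generalize e.2 = a
    revert p a
    decide
  have hpar : ∀ (a x y z : Fin n → ZMod 2), parity a (x + y + z) =
      parity a x + parity a y + parity a z := by
    intro a x y z
    unfold parity
    simp only [Pi.add_apply, mul_add, sum_add_distrib]
  have hlit_aff : ∀ e, IsAff (lit e) := by
    intro e x y z
    simp only [hlit, hpar]
    generalize parity e.1 x = p
    generalize parity e.1 y = p'
    generalize parity e.1 z = p''
    generalize e.2 = a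
    revert p p' p'' a
    decide
  set Lam : Finset (V n → ZMod 2) := (A ×ˢ (univ : Finset (ZMod 2))).image lit with hLam
  have hLamcard : Lam.card ≤ 2 * A.card := by
    refine card_image_le.trans ?_
    rw [card_product, card_univ, ZMod.card]
    omega
  set K : Fin s → Finset (V n → ZMod 2) := fun i => (L i).eqs.image lit with hK
  set G : Fin s → V n → Prop := fun i x => (L i).fn (fun j => parity ((L i).forms j) x) with hG
  have hlin : ∀ i x, lin (K i) (G i) x ↔ (L i).Holds x := by
    intro i x
    unfold lin Line.Holds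
    constructor
    · rintro (⟨l, hl, hlx⟩ | hx)
      · obtain ⟨e, he, rfl⟩ := mem_image.1 hl
        exact Or.inl ⟨e, he, (hlit_iff e x).1 hlx⟩
      · exact Or.inr hx
    · rintro (⟨e, he, hex⟩ | hx)
      · exact Or.inl ⟨lit e, mem_image_of_mem lit he, (hlit_iff e x).2 hex⟩
      · exact Or.inr hx
  have hder := main_ind (n := n) s h q 3 d r (2 * A.card) (2 * A.card) b le_rfl
    {f | ∃ C ∈ F, f = SatC C}
    (by
      rintro f ⟨C, hC, rfl⟩
      refine ⟨C.image (fun l x => x l.1), card_image_le.trans (hF2 C hC).1.le, ?_, ?_⟩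
      · intro l hl
        obtain ⟨l', hl', rfl⟩ := mem_image.1 hl
        intro x y z
        rfl
      · rintro x y hxy ⟨l, hl, hlx⟩
        refine ⟨l, hl, ?_⟩
        rw [← hlx]
        exact (hxy _ (mem_image_of_mem (fun (l : Fin n × ZMod 2) (x : V n) => x l.1) hl)).symm)
    Lam
    (by
      intro l hl
      obtain ⟨e, -, rfl⟩ := mem_image.1 hl
      exact hlit_aff e)
    ((card_filter_le _ _).trans hLamcard)
    K
    (by
      intro i l hl
      obtain ⟨e, he, rfl⟩ := mem_image.1 hl
      exact mem_image_of_mem lit (mem_product.2 ⟨hA i e he, mem_univ _⟩))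
    G
    (by
      intro i
      refine ⟨univ.image (fun j x => parity ((L i).forms j) x), card_image_le.trans (by simp),
        ?_, ?_⟩
      · intro l hl
        obtain ⟨j, -, rfl⟩ := mem_image.1 hl
        intro x y z
        exact hpar _ x y z
      · intro x y hxy hx
        have : (fun j => parity ((L i).forms j) x) = (fun j => parity ((L i).forms j) y) := by
          funext j
          exact hxy _ (mem_image_of_mem (fun j x => parity ((L i).forms j) x) (mem_univ j))
        show (L i).fn (fun j => parity ((L i).forms j) y)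
        rw [← this]
        exact hx)
    (by
      intro i
      obtain ⟨P, hP1, hP2, Q, hQ1, hQ2, himp⟩ := hinf i
      refine ⟨P, hP1, hP2, Q.image SatC, card_image_le.trans hQ2, ?_, ?_⟩
      · intro a ha
        obtain ⟨C, hC, rfl⟩ := mem_image.1 ha
        exact ⟨C, hQ1 hC, rfl⟩
      · intro x hx hy
        rw [hlin]
        apply himp x
        · intro j hj
          rw [← hlin]
          exact hx j hj
        · intro C hC
          exact hy (SatC C) (mem_image_of_mem SatC hC))
    (by
      obtain ⟨i, hi⟩ := hfalse
      refine ⟨i, fun x => ?_⟩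
      rw [hlin]
      exact hi x)
    (by
      set D := (univ.filter (fun i => Fat d (K i))).card with hD
      rcases Nat.eq_zero_or_pos D with h0 | hDpos
      · rw [h0]; simp
      · obtain ⟨i, hi⟩ := card_pos.1 hDpos
        have hKLam : K i ⊆ Lam := by
          intro l hl
          obtain ⟨e, he, rfl⟩ := mem_image.1 hl
          exact mem_image_of_mem lit (mem_product.2 ⟨hA i e he, mem_univ _⟩)
        have hdA : d ≤ 2 * A.card := by
          have h1 := (mem_filter.1 hi).2.1
          have h2 : ((K i).filter NC).card ≤ Lam.card :=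
            (card_filter_le _ _).trans (card_le_card hKLam)
          omega
        have hApos : 0 < A.card := by omega
        have hAr : (0 : ℝ) < A.card := by exact_mod_cast hApos
        have hDs : (D : ℝ) ≤ s := by
          have : D ≤ s := (card_filter_le _ _).trans (by simp)
          exact_mod_cast this
        have hdr : (d : ℝ) ≤ 2 * A.card := by exact_mod_cast hdA
        have hpow : (1 - (d : ℝ) / ((2 * A.card : ℕ) : ℝ)) ^ b ≤
            Real.exp (-(d * b / (2 * A.card))) := by
          have h1 : 1 - (d : ℝ) / ((2 * A.card : ℕ) : ℝ) ≤ Real.exp (-(d / (2 * A.card))) := by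
            have := Real.add_one_le_exp (-((d : ℝ) / (2 * A.card)))
            push_cast
            linarith
          have h2 : (0 : ℝ) ≤ 1 - (d : ℝ) / ((2 * A.card : ℕ) : ℝ) := by
            push_cast
            rw [sub_nonneg, div_le_one (by positivity)]
            exact hdr
          calc (1 - (d : ℝ) / ((2 * A.card : ℕ) : ℝ)) ^ b
              ≤ (Real.exp (-(d / (2 * A.card)))) ^ b := pow_le_pow_left₀ h2 h1 b
            _ = Real.exp (-(d * b / (2 * A.card))) := by
                rw [← Real.exp_nat_mul]
                congr 1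
                ring
        have hb1 : (M : ℝ) / 96 ≤ b := by
          have : M ≤ 96 * b := by omega
          rw [div_le_iff₀ (by norm_num)]
          have : (M : ℝ) ≤ 96 * b := by exact_mod_cast this
          linarith
        have hd3 : (M : ℝ) / (96 * (h + 1)) ≤ d := by
          have : M ≤ 96 * (h + 1) * d := by nlinarith
          rw [div_le_iff₀ (by positivity)]
          have : (M : ℝ) ≤ 96 * (h + 1) * d := by exact_mod_cast this
          linarith
        have hexpo : (1 / 10 ^ 20 : ℝ) * n ^ 2 / ((h + 1) * A.card) ≤ d * b / (2 * A.card) := by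
          have h3 : (M : ℝ) / (96 * (h + 1)) * (M / 96) ≤ d * b :=
            mul_le_mul hd3 hb1 (by positivity) (by positivity)
          have h4 : (n : ℝ) ^ 2 / 36000000 ^ 2 ≤ (M : ℝ) ^ 2 := by
            rw [← div_pow]
            exact pow_le_pow_left₀ (by positivity) hM2 2
          rw [div_le_div_iff₀ (by positivity) (by positivity)]
          have h5 : (M : ℝ) ^ 2 / (9216 * (h + 1)) ≤ d * b := by
            refine le_trans (le_of_eq ?_) h3
            field_simp
            norm_num
          have h6 : (M : ℝ) ^ 2 ≤ d * b * (9216 * (h + 1)) := by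
            rwa [div_le_iff₀ (by positivity)] at h5
          have h7 : (n : ℝ) ^ 2 ≤ 36000000 ^ 2 * M ^ 2 := by
            rw [div_le_iff₀ (by positivity)] at h4
            linarith
          have h8 : (n : ℝ) ^ 2 ≤ 36000000 ^ 2 * (d * b * (9216 * (h + 1))) := by linarith
          have h9 : (1 / 10 ^ 20 : ℝ) * n ^ 2 * 2 ≤ d * b * (h + 1) := by
            have h10 : (0 : ℝ) ≤ d * b * (h + 1) := by positivity
            nlinarith
          have h11 := mul_le_mul_of_nonneg_right h9 hAr.le
          linarith
        have hs2 : (s : ℝ) < Real.exp (d * b / (2 * A.card)) := by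
          refine lt_of_lt_of_le hcon ?_
          rw [Real.rpow_def_of_pos (by norm_num)]
          apply Real.exp_le_exp.2
          have hlog : Real.log 2 ≤ 1 := by
            have := Real.log_two_lt_d9
            linarith
          have hnn : (0 : ℝ) ≤ (1 / 10 ^ 20 : ℝ) * n ^ 2 / ((h + 1) * A.card) := by positivity
          nlinarith
        calc (D : ℝ) * (1 - (d : ℝ) / ((2 * A.card : ℕ) : ℝ)) ^ b
            ≤ s * Real.exp (-(d * b / (2 * A.card))) := by
              apply mul_le_mul hDs hpow _ (by positivity)
              apply pow_nonneg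
              push_cast
              rw [sub_nonneg, div_le_one (by positivity)]
              exact hdr
          _ < Real.exp (d * b / (2 * A.card)) * Real.exp (-(d * b / (2 * A.card))) :=
              mul_lt_mul_of_pos_right hs2 (Real.exp_pos _)
          _ = 1 := by rw [← Real.exp_add]; simp)
  exact no_narrow (F := F) (M := M) (w := w) hF4 (fun C hC => (hF2 C hC).1.le)
    (by omega) hw6 hder

end Pool.Agent.H15.ParityResolutionFile
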